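import Pool.Agent.R351.GD.H.WinA

/-!
# Period relations of growing degree at algebraic points of growing degree, hypergeometric families of Calabi–Yau type

Let `β_1, …, β_m` be rational numbers which are not integers, `n = 2m` and `θ = z d/dz`. The hypergeometric operator
`θ^n - z ∏_j (θ - β_j) (θ + β_j)` has maximally unipotent monodromy at `z = 0`; the mirror quintic family is contiguous to
the case `β = (1/5, 2/5)`. The period matrices of the corresponding family of motives at `z` near `0` are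
`A(z) Y(z) Ω` with the matrix `Y` of the derivatives of the Frobenius solutions, `A` over `ℚ(z)` and `Ω` constant (the
periods of the limit). We prove the degree-`δ` statement in windows of algebraic points `z = 1 / (ξ - G u)`, `u ≤ H`,
for all `δ` such that `(H + 2)^((δ + 2)^C) ≤ |ξ|`, where also the degree of `ξ` and the exponent of its height are only
bounded by `δ`.
-/

set_option autoImplicit false

open PowerSeries Pool.Agent.Y119.HZ

namespace Pool.Agent.Results.MP_290158_ag.AlgebraicGrowingDegrees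

/-- the power series `k + ε` in the variable `ε` -/
noncomputable def shift (k : ℕ) : PowerSeries ℚ := C (k : ℚ) + X

/-- `a_k(ε) = ∏_{l < k} ∏_j ((l + ε)^2 - β_j^2) / (l + 1 + ε)^(2m)`. The series `∑_k a_k(ε) z^(k + ε)` solves the
equation `(θ^n - z ∏_j (θ^2 - β_j^2)) f = ε^n z^ε`, hence its coefficients `f_j` at `ε^j` with `j < n = 2m` are
solutions of the homogeneous equation. -/
noncomputable def frob {m : ℕ} (β : Fin m → ℚ) (k : ℕ) : PowerSeries ℚ :=
  ∏ l ∈ Finset.range k, ((∏ j, (shift l ^ 2 - C (β j ^ 2))) * ((shift (l + 1))⁻¹) ^ (2 * m))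

/-- The matrix with the entries `(θ^i f_j)(z)` at `z = 1 / ξ`, where `f_j(z)` is the coefficient of `ε^j` in the series
`∑_k a_k(ε) z^(k + ε)`, `z^ε = ∑_a (log z)^a ε^a / a!`, with the value `-l` of `log z`, where `exp l = ξ`. -/
noncomputable def Y {m : ℕ} (β : Fin m → ℚ) (ξ l : ℂ) : Matrix (Fin (2 * m)) (Fin (2 * m)) ℂ :=
  Matrix.of fun i j => ∑ a ∈ Finset.range ((j : ℕ) + 1), (-l) ^ a / (a.factorial : ℂ) *
    ∑' k : ℕ, ((coeff ((j : ℕ) - a) (shift k ^ (i : ℕ) * frob β k) : ℚ) : ℂ) * (1 / ξ) ^ k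

/-- the polynomial `∏_j (x^2 - β_j^2)` -/
noncomputable def poly {m : ℕ} (β : Fin m → ℚ) : Polynomial ℚ := ∏ j, (Polynomial.X ^ 2 - Polynomial.C (β j ^ 2))

/-- The matrix of the intersection form: the entry `(i, j)` is `(-1)^i q_{i+j+1-n}` for `i + j + 1 ≥ n` and `0`
otherwise, where `q_l` are the coefficients of `∏_j (x^2 - β_j^2)`. -/
noncomputable def J {m : ℕ} (β : Fin m → ℚ) : Matrix (Fin (2 * m)) (Fin (2 * m)) ℂ :=
  Matrix.of fun i j => if 2 * m ≤ (i : ℕ) + j + 1 then (((-1) ^ (i : ℕ) * (poly β).coeff (i + j + 1 - 2 * m) : ℚ) : ℂ) else 0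

/-- the symplectic group of the form `J` -/
def Sp {m : ℕ} (β : Fin m → ℚ) : Set (Matrix (Fin (2 * m)) (Fin (2 * m)) ℂ) := {g | g.transpose * J β * g = J β}

/-- the point with the coordinates `l_i` and the entries of the matrices `X_i` -/
def point {k n : ℕ} (l : Fin k → ℂ) (X : Fin k → Matrix (Fin n) (Fin n) ℂ) : Fin k × Option (Fin n × Fin n) → ℂ
  | (i, none) => l i
  | (i, some p) => X i p.1 p.2

/-- the coordinates of the constants: the entries of `Ω` and `q` further numbers `w` -/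
def consts {n q : ℕ} (Ω : Matrix (Fin n) (Fin n) ℂ) (w : Fin q → ℂ) : Fin n × Fin n ⊕ Fin q → ℂ :=
  Sum.elim (fun p => Ω p.1 p.2) w

/-- `ξ` is a root of a nonzero integral polynomial of degree at most `g` with coefficients of size at most `|ξ|^A` -/
def Height (g A : ℕ) (ξ : ℂ) : Prop :=
  ∃ p : Polynomial ℤ, p ≠ 0 ∧ p.natDegree ≤ g ∧ (∀ j, |(p.coeff j : ℝ)| ≤ ‖ξ‖ ^ A) ∧ Polynomial.aeval ξ p = 0

/-- For all number fields `K` of degree `≤ δ`, every polynomial of degree `≤ δ` over `K` which vanishes at the point with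
the coordinates `Ω`, `w`, `l_i` and the entries of the matrices `Y(1 / ξ_i) Ω` (for the branch `-l_i` of `log z` at
`z = 1 / ξ_i`) vanishes at all points with the coordinates `Ω`, `w`, `l'_i ∈ ℂ` and the entries of `g_i Ω` with `g_i` in the
symplectic group. -/
def Generic {m k q : ℕ} (δ : ℕ) (β : Fin m → ℚ) (Ω : Matrix (Fin (2 * m)) (Fin (2 * m)) ℂ) (w : Fin q → ℂ)
    (ξ l : Fin k → ℂ) : Prop :=
  ∀ K : IntermediateField ℚ ℂ, FiniteDimensional ℚ K → Module.finrank ℚ K ≤ δ →
    ∀ P : MvPolynomial ((Fin (2 * m) × Fin (2 * m) ⊕ Fin q) ⊕ Fin k × Option (Fin (2 * m) × Fin (2 * m))) K,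
    P.totalDegree ≤ δ →
    MvPolynomial.aeval (Sum.elim (consts Ω w) (point l fun i => Y β (ξ i) (l i) * Ω)) P = 0 →
    ∀ (l' : Fin k → ℂ) (g : Fin k → Matrix (Fin (2 * m)) (Fin (2 * m)) ℂ), (∀ i, g i ∈ Sp β) →
      MvPolynomial.aeval (Sum.elim (consts Ω w) (point l' fun i => g i * Ω)) P = 0

theorem shift_eq (k : ℕ) : shift k = Pool.Agent.Y119.HY.kx k := rfl

theorem frob_eq {m : ℕ} (β : Fin m → ℚ) (k : ℕ) : frob β k = Pool.Agent.Y119.HY.aq (2 * m) (Pool.Agent.Y119.HY.QB β) k := by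
  unfold frob Pool.Agent.Y119.HY.aq
  refine Finset.prod_congr rfl fun l _ => ?_
  congr 1
  unfold Pool.Agent.Y119.HY.QB
  rw [map_prod]
  refine Finset.prod_congr rfl fun j _ => ?_
  simp only [map_sub, map_pow, Polynomial.aeval_X, Polynomial.aeval_C]
  rfl

theorem J_eq {m : ℕ} (β : Fin m → ℚ) :
    J β = Pool.Agent.Y119.HY.cm (Pool.Agent.Y119.HY.Jm (2 * m) (Pool.Agent.Y119.HY.QB β)) := by
  ext i j
  rw [Pool.Agent.Y119.HY.cm_apply]
  unfold J Pool.Agent.Y119.HY.Jm
  rw [Matrix.of_apply, Matrix.of_apply]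
  split_ifs
  · rfl
  · simp

theorem Y_eq {m : ℕ} (β : Fin m → ℚ) (ξ l : ℂ) : Y β ξ l =
    Pool.Agent.Y119.HY.Hf (Pool.Agent.Y119.HY.Hc (2 * m) (Pool.Agent.Y119.HY.QB β)) (1 / ξ) *
      Pool.Agent.Y119.HY.E (Pool.Agent.Y119.HY.cm (Pool.Agent.Y119.HY.Am (2 * m))) (-l) := by
  ext i j
  unfold Y
  rw [Matrix.of_apply, Matrix.mul_apply]
  have hE : ∀ c : Fin (2 * m), Pool.Agent.Y119.HY.E (Pool.Agent.Y119.HY.cm (Pool.Agent.Y119.HY.Am (2 * m)))
      (-l) c j = ∑ a ∈ Finset.range (2 * m), if (j : ℕ) = c + a then (-l) ^ a / (a.factorial : ℂ) else 0 := by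
    intro c
    unfold Pool.Agent.Y119.HY.E
    rw [Matrix.sum_apply]
    refine Finset.sum_congr rfl fun a _ => ?_
    rw [Matrix.smul_apply, ← Pool.Agent.Y119.HY.cm_pow, Pool.Agent.Y119.HY.cm_apply, Pool.Agent.Y119.HY.Am_pow, smul_eq_mul]
    split_ifs
    · push_cast
      ring
    · simp
  simp only [hE, Finset.mul_sum]
  rw [Finset.sum_comm]
  have hsub : Finset.range ((j : ℕ) + 1) ⊆ Finset.range (2 * m) := by
    intro a ha
    rw [Finset.mem_range] at ha ⊢
    have := j.2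
    omega
  refine Finset.sum_subset_zero_on_sdiff hsub (fun a ha => ?_) fun a ha => ?_
  · rw [Finset.mem_sdiff, Finset.mem_range, Finset.mem_range] at ha
    refine Finset.sum_eq_zero fun c _ => ?_
    rw [if_neg (by omega), mul_zero]
  · rw [Finset.mem_range] at ha
    have hj := j.2
    rw [Finset.sum_eq_single (⟨(j : ℕ) - a, by omega⟩ : Fin (2 * m))]
    · rw [if_pos (by simp only; omega), mul_comm]
      congr 1
      unfold Pool.Agent.Y119.HY.Hf Pool.Agent.Y119.HY.ps
      rw [Matrix.of_apply]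
      refine tsum_congr fun k => ?_
      show _ = ((Pool.Agent.Y119.HY.hq (2 * m) (Pool.Agent.Y119.HY.QB β) k i ((j : ℕ) - a) : ℚ) : ℂ) * (1 / ξ) ^ k
      rw [frob_eq, shift_eq]
      rfl
    · intro c _ hc
      rw [if_neg, mul_zero]
      intro h
      apply hc
      apply Fin.ext
      simp only
      omega
    · intro h
      exact absurd (Finset.mem_univ _) h

theorem point_eq {k n : ℕ} (l : Fin k → ℂ) (X : Fin k → Matrix (Fin n) (Fin n) ℂ) :
    point l X = Pool.Agent.R351.GD.H.pm l X := by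
  funext v
  obtain ⟨i, _ | p⟩ := v
  · rfl
  · rfl

/-- Let `β` be a finite non-empty family of rational numbers which are not integers and let `J` and `Y` be the alternating form
and the period matrix of the hypergeometric equation `(θ^(2 m) - z ∏_j (θ^2 - β_j^2)) f = 0`. There is `G_0` such that for
all `G ≥ G_0`, all `k` and `q` there is `C` such that for all `δ`, all `H` and all algebraic numbers `ξ` with
`|ξ| ≥ (H + 2)^((δ + 2)^C)` which are roots of nonzero integral polynomials of degree `≤ δ` with coefficients of absolute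
value at most `|ξ|^δ`, all constant matrices `Ω` and all `w ∈ ℂ^q` there are at most `4 m^2 + q` exceptional numbers such
that all `k`-tuples of distinct fibres `z_i = 1 / (ξ - G u_i)` with `u_i ∈ {1, …, H}` not exceptional are generic: all
relations of degree `≤ δ` over number fields of degree `≤ δ` between `Ω`, `w`, the logarithms `l_i` of the `ξ - G u_i` and the
periods of the fibres hold for all matrices in the symplectic group `Sp(J)` and all values of the logarithms, for all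
branches `l_i` of the logarithm such that `l_i - Log (1 - G u_i / ξ)` is a rational linear combination of `w_1, …, w_q`
(for all branches if `2 π i` and one value of the logarithm of `ξ` are among the `w_j`). -/
theorem result {m : ℕ} (hm : 1 ≤ m) (β : Fin m → ℚ) (hβ : ∀ j, ∀ a : ℤ, β j ≠ a) :
    ∃ G₀ : ℕ, ∀ G : ℕ, G₀ ≤ G → ∀ k q : ℕ, ∃ C : ℕ, ∀ (δ H : ℕ) (ξ : ℂ), Height δ δ ξ →
      ((H : ℝ) + 2) ^ (δ + 2) ^ C ≤ ‖ξ‖ →
      ∀ (Ω : Matrix (Fin (2 * m)) (Fin (2 * m)) ℂ) (w : Fin q → ℂ), ∃ S : Finset ℕ, S.card ≤ 4 * m ^ 2 + q ∧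
      ∀ u : Fin k → ℕ, Function.Injective u → (∀ i, 1 ≤ u i ∧ u i ≤ H ∧ u i ∉ S) →
        (∀ i, 1 < ‖ξ - ((G * u i : ℕ) : ℂ)‖) ∧
        ∀ l : Fin k → ℂ, (∀ i, Complex.exp (l i) = ξ - ((G * u i : ℕ) : ℂ)) →
          (∀ i, l i - Complex.log (1 - ((G * u i : ℕ) : ℂ) / ξ) ∈ Submodule.span ℚ (Set.range w)) →
          Generic δ β Ω w (fun i => ξ - ((G * u i : ℕ) : ℂ)) l := by
  classical
  have hβ' : ∀ j, ∀ l : ℕ, (l : ℚ) + β j ≠ 0 ∧ (l : ℚ) + -β j ≠ 0 := by
    intro j l
    constructor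
    · intro h
      apply hβ j (-(l : ℤ))
      push_cast
      linear_combination h
    · intro h
      apply hβ j (l : ℤ)
      push_cast
      linear_combination -h
  have hQ := QD_QB hm hβ'
  have hH := fun a b => Pool.Agent.Y119.HY.sdc_hps hβ' hQ a b
  obtain ⟨G₀, -, hW⟩ := Pool.Agent.R351.GD.H.winAH hQ hH
  refine ⟨G₀, fun G hG k q => ?_⟩
  obtain ⟨E, ⟨C, hC⟩, hE⟩ := hW G hG k (4 * m ^ 2 + q)
  refine ⟨C, fun δ H ξ hht hξ Ω w => ?_⟩
  have hcard : Fintype.card (Fin (2 * m) × Fin (2 * m) ⊕ Fin q) = 4 * m ^ 2 + q := by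
    rw [Fintype.card_sum, Fintype.card_prod, Fintype.card_fin, Fintype.card_fin]
    ring
  have hH2 : (1 : ℝ) ≤ (H : ℝ) + 2 := by
    have : (0 : ℝ) ≤ H := Nat.cast_nonneg H
    linarith
  obtain ⟨S, hS, h⟩ := hE δ H ξ hht ((pow_le_pow_right₀ hH2 (hC δ)).trans hξ) (Fin (2 * m) × Fin (2 * m) ⊕ Fin q) hcard
    (consts Ω w) (fun a b => Sum.inl (a, b))
  refine ⟨S, hS, fun u hu huS => ?_⟩
  obtain ⟨h1, h2⟩ := h u hu huS
  refine ⟨h1, fun l _ hlw K hKf hKd P hP hP0 l' g hg => ?_⟩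
  have hO : (Matrix.of fun a b => consts Ω w (Sum.inl (a, b))) = Ω := by
    ext a b
    rfl
  have hsub : Set.range w ⊆ Set.range (consts Ω w) := by
    rintro _ ⟨a, rfl⟩
    exact ⟨Sum.inr a, rfl⟩
  have h3 := h2 l (fun i => Submodule.span_mono hsub (hlw i)) K hKf hKd P hP (by
    rw [← hP0, point_eq]
    simp only [hO, Y_eq]
    rfl) l' g (fun i => by
      have h6 : (g i).transpose * J β * g i = J β := hg i
      rw [J_eq] at h6
      exact h6)
  simp only [hO] at h3
  rw [point_eq]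
  exact h3

end Pool.Agent.Results.MP_290158_ag.AlgebraicGrowingDegrees
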