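import Pool.Agent.R351.GD.Hy.WinK

/-!
# The degree-`δ` statement in windows of fibres of a hyperelliptic family, with growing degree

`f ∈ ℚ[X]` is monic of degree `n = 2g` with `n` distinct real roots, all different from `0`, and `C(z)` is the curve
`y² = f(x) (x - z)` of genus `g`. It is known that for each fixed `δ` the degree-`δ` statement holds for almost all integers
(equivalently, after a change of coordinates, for almost all `z = 1 / s`, `s ∈ ℕ`). Here `δ` may grow with `s` and the number
of exceptions is bounded in short windows: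

There are `G_0` and, for all `G ≥ G_0`, all `k` and `q`, a number `C` such that for all `δ`, all `H` and all
`t ≥ (H + 2)^((δ + 2)^C)` and all constants `w ∈ ℂ^q` there is a set `S` of at most `q + trdeg` exceptional numbers, where
`trdeg ≤ n (n + 1) / 2 + 1` is the transcendence degree of the periods of the central fibre `C(0)`, such that for all
`k`-tuples of distinct fibres `z_j = 1 / (t - G u_j)` with `1 ≤ u_j ≤ H`, `u_j ∉ S`, all relations of degree `≤ δ` over
number fields of degree `≤ δ` (with no bound on the height of the coefficients) between the periods of the `k` curves hold on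
the torsor of the `k`-th power of the family, and all such relations between the periods of the `k` curves, the periods of
the central fibre, `2πi` and the constants `w` hold at all the points of this torsor with multiplier `2πi`.

So `δ` and the degree of the number field may be as large as a power of `log t / log H`. The bound for the exceptional set
does not depend on `k`, `δ`, `H` and `t`.
-/

set_option autoImplicit false

open Polynomial NumberField

namespace Pool.Agent.Results.MP_290158_ag.HyperellipticGrowingDegrees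

variable {n N : ℕ}

/-- the branch points: `t` inserted at place `m` in the sequence of the `a i` -/
noncomputable def branch (a : Fin n → ℝ) (m : Fin (n + 1)) (t : ℝ) : Fin (n + 1) → ℝ :=
  Fin.insertNth (α := fun _ => ℝ) m t a

/-- the period `∮ x^j dx / y`, `y² = ∏ (x - e i)`, over the loop around the segment `[e l, e (l + 1)]`, that is twice
the integral over the segment (principal branch of the square root) -/
noncomputable def period (e : Fin (n + 1) → ℝ) (l j : Fin n) : ℂ :=
  2 * ∫ x in (e l.castSucc)..(e l.succ), (x : ℂ) ^ (j : ℕ) / (((∏ i, (x - e i) : ℝ) : ℂ) ^ (1 / 2 : ℂ))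

/-- the polarisation in terms of the forms `x^j dx / y`, `y² = F(x) = ∑ c_k x^k`: entries `(i - j)/2 * c_(i+j+2)` -/
noncomputable def polDR (n : ℕ) (F : ℚ[X]) : Matrix (Fin n) (Fin n) ℚ :=
  Matrix.of fun i j => (((i : ℕ) : ℚ) - ((j : ℕ) : ℚ)) / 2 * F.coeff ((i : ℕ) + (j : ℕ) + 2)

/-- the polarisation in terms of the loops: `2 (-1)^r` at `(r, s)`, `|r - s| = 1` -/
def polB (n : ℕ) : Matrix (Fin n) (Fin n) ℚ :=
  Matrix.of fun r s => if (r : ℕ) = s + 1 ∨ (s : ℕ) = r + 1 then 2 * (-1) ^ (r : ℕ) else 0

/-- the point with coordinates the entries of the matrices `X j` and `lam` -/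
def point (X : Fin N → Matrix (Fin n) (Fin n) ℂ) (lam : ℂ) : Option (Fin N × Fin n × Fin n) → ℂ :=
  fun o => o.elim lam fun x => X x.1 x.2.1 x.2.2

/-- the entries of the matrices `X j` -/
def entries (X : Fin N → Matrix (Fin n) (Fin n) ℂ) : Fin N × Fin n × Fin n → ℂ := fun x => X x.1 x.2.1 x.2.2

/-- the complex points of the torsor of the curves `y² = F_j(x)`: matrices `X_j` and `lam ≠ 0` with
`X_j polDR(F_j) X_jᵀ = lam polB` (a torsor under `{(g_1, …, g_N) : g_j ∈ GSp_(2g), equal multipliers}`) -/
def Torsor (F : Fin N → ℚ[X]) : Set ((Fin N → Matrix (Fin n) (Fin n) ℂ) × ℂ) :=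
  {x | x.2 ≠ 0 ∧ ∀ j, x.1 j * (polDR n (F j)).map (algebraMap ℚ ℂ) * (x.1 j).transpose =
    x.2 • (polB n).map (algebraMap ℚ ℂ)}

/-- every polynomial `P` of degree `≤ D` with coefficients in a number field of degree `≤ d` (any such field, no bound
on the height of the coefficients) with `P(c) = 0` vanishes on the torsor -/
def DegreeGPC (F : Fin N → ℚ[X]) (c : Option (Fin N × Fin n × Fin n) → ℂ) (d D : ℕ) : Prop :=
  ∀ (K : Type) [Field K] [NumberField K] (φ : K →+* ℂ) (P : MvPolynomial (Option (Fin N × Fin n × Fin n)) K),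
    Module.finrank ℚ K ≤ d → P.totalDegree ≤ D → (P.map φ).eval c = 0 →
    ∀ x ∈ Torsor (n := n) F, (P.map φ).eval (point x.1 x.2) = 0

/-- relations with the constants `w` and `c0`: every polynomial `P` of degree `≤ D` with coefficients in a number field of
degree `≤ d` with `P(w, c0, Y) = 0` vanishes at `(w, c0, x)` for all the points `x` of the torsor with `lam = 2πi` -/
def RelativeGPC {q : ℕ} (w : Fin q → ℂ) (c0 : Option (Fin n × Fin n) → ℂ) (F : Fin N → ℚ[X])
    (Y : Fin N → Matrix (Fin n) (Fin n) ℂ) (d D : ℕ) : Prop :=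
  ∀ (K : Type) [Field K] [NumberField K] (φ : K →+* ℂ)
    (P : MvPolynomial ((Fin q ⊕ Option (Fin n × Fin n)) ⊕ Fin N × Fin n × Fin n) K),
    Module.finrank ℚ K ≤ d → P.totalDegree ≤ D → (P.map φ).eval (Sum.elim (Sum.elim w c0) (entries Y)) = 0 →
    ∀ x ∈ Torsor (n := n) F, x.2 = 2 * Real.pi * Complex.I →
      (P.map φ).eval (Sum.elim (Sum.elim w c0) (entries x.1)) = 0

/-- `2πi` and the periods of the central fibre `y² = f(x) x` -/
noncomputable def central (a : Fin n → ℝ) (m : Fin (n + 1)) : Option (Fin n × Fin n) → ℂ :=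
  fun o => o.elim (2 * Real.pi * Complex.I) fun x => period (branch a m 0) x.1 x.2

/-- the field generated by `2πi` and the periods of the central fibre -/
noncomputable def centralField (a : Fin n → ℝ) (m : Fin (n + 1)) : IntermediateField ℚ ℂ :=
  IntermediateField.adjoin ℚ (Set.range (central a m))

/-- The statement for the `N`-tuple of the fibres `y² = f(x) (x - 1 / t_j)`: the `1 / t_j` are in the gap of `0`, the point
formed by the period matrices of the fibres and by `2πi` is on the torsor, all the relations of degree `≤ δ` over number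
fields of degree `≤ δ` which hold at the point hold on the torsor, and all the relations of degree `≤ δ` over number fields
of degree `≤ δ` between the periods of the fibres, the numbers `w`, `2πi` and the periods of the central fibre
`y² = f(x) x` hold at all the points of the torsor with `lam = 2πi`. -/
def Good {q : ℕ} (δ : ℕ) (w : Fin q → ℂ) (a : Fin n → ℝ) (m : Fin (n + 1)) (f : ℚ[X]) (t : Fin N → ℕ) : Prop :=
  (∀ j, StrictMono (branch a m (1 / (t j : ℝ)))) ∧
    ((fun j => Matrix.of (period (branch a m (1 / (t j : ℝ))))), (2 * Real.pi * Complex.I : ℂ)) ∈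
      Torsor (n := n) (fun j => f * (X - C (1 / (t j : ℚ)))) ∧
    DegreeGPC (fun j => f * (X - C (1 / (t j : ℚ))))
      (point (fun j => Matrix.of (period (branch a m (1 / (t j : ℝ))))) (2 * Real.pi * Complex.I)) δ δ ∧
    RelativeGPC w (central a m) (fun j => f * (X - C (1 / (t j : ℚ))))
      (fun j => Matrix.of (period (branch a m (1 / (t j : ℝ))))) δ δ

theorem rel_conv {q : ℕ} {w : Fin q → ℂ} {a : Fin n → ℝ} {m : Fin (n + 1)} {F : Fin N → ℚ[X]}
    {Y : Fin N → Matrix (Fin n) (Fin n) ℂ} {d D : ℕ}
    (h : Pool.Agent.R351.GD.Hy.RGw w (point (fun _ : Fin N => Matrix.of (period (branch a m 0)))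
      (2 * Real.pi * Complex.I)) F Y d D) : RelativeGPC w (central a m) F Y d D := by
  intro K _ _ φ P hK hP hP0 x hx hx2
  rcases Nat.eq_zero_or_pos N with rfl | hN
  · rw [← hP0]
    congr 2
    funext y
    rcases y with y | y
    · rfl
    · exact y.1.elim0
  · have hv : ∀ Z : Fin N → Matrix (Fin n) (Fin n) ℂ,
        ((MvPolynomial.rename (Sum.map (Sum.map id (Option.map fun y : Fin n × Fin n => ((⟨0, hN⟩ : Fin N), y))) id) P).map
          φ).eval (Sum.elim (Sum.elim w (point (fun _ : Fin N => Matrix.of (period (branch a m 0)))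
            (2 * Real.pi * Complex.I))) fun y => Z y.1 y.2.1 y.2.2) =
        (P.map φ).eval (Sum.elim (Sum.elim w (central a m)) (entries Z)) := by
      intro Z
      rw [MvPolynomial.map_rename, MvPolynomial.eval_rename]
      congr 2
      funext y
      rcases y with ((y | (_ | y)) | y) <;> rfl
    have h1 := h K φ _ hK ((MvPolynomial.totalDegree_rename_le _ _).trans hP) ((hv Y).trans hP0) x hx hx2
    exact (hv x.1).symm.trans h1

theorem range_central (a : Fin n → ℝ) (m : Fin (n + 1)) :
    Set.range (Pool.Agent.Y118.HP.pt (fun _ : Fin 1 => Matrix.of (Pool.Agent.Y118.HP.cper (Pool.Agent.Y118.HP.er a m 0)))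
      (2 * Real.pi * Complex.I)) = Set.range (central a m) := by
  ext z
  constructor
  · rintro ⟨_ | ⟨l, i, j⟩, rfl⟩
    · exact ⟨none, rfl⟩
    · exact ⟨some (i, j), rfl⟩
  · rintro ⟨_ | ⟨i, j⟩, rfl⟩
    · exact ⟨none, rfl⟩
    · exact ⟨some (0, i, j), rfl⟩

/-- Let `f ∈ ℚ[X]` be monic of even degree `n` with distinct real roots `a`, all different from `0`; `m` is the place of `0`
among the roots. There is `G_0` such that for all `G ≥ G_0`, all `k` and `q` there is `C` such that for all `δ`, `H` and
`t ≥ (H + 2)^((δ + 2)^C)` and all `w ∈ ℂ^q` there is a set `S` of at most `q + trdeg` numbers, in particular of at most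
`q + n (n + 1) / 2 + 1` numbers, such that the statement of degree `δ` holds for all `k`-tuples of distinct fibres
`y² = f(x) (x - 1 / (t - G u_j))` with `1 ≤ u_j ≤ H` and `u_j ∉ S`. -/
theorem result (hn : Even n) (a : Fin n → ℝ) (f : ℚ[X])
    (hf : f.map (algebraMap ℚ ℝ) = ∏ i, (X - C (a i))) (m : Fin (n + 1)) (h0 : StrictMono (branch a m 0)) :
    ∃ G₀ : ℕ, ∀ G : ℕ, G₀ ≤ G → ∀ k q : ℕ, ∃ C₀ : ℕ, ∀ δ H t : ℕ, (H + 2) ^ (δ + 2) ^ C₀ ≤ t →
      (∀ u : ℕ, u ≤ H → G * u < t ∧ StrictMono (branch a m (1 / ((t - G * u : ℕ) : ℝ)))) ∧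
      ∀ w : Fin q → ℂ, ∃ S : Finset ℕ,
        (S.card : Cardinal) ≤ q + Algebra.trdeg ℚ (centralField a m) ∧
        2 * S.card ≤ 2 * q + n * (n + 1) + 2 ∧
        ∀ u : Fin k → ℕ, Function.Injective u → (∀ j, 1 ≤ u j ∧ u j ≤ H ∧ u j ∉ S) →
          Good δ w a m f fun j => t - G * u j := by
  obtain ⟨G₀, h1⟩ := Pool.Agent.R351.GD.Hy.wfinY hn a f hf m h0
  refine ⟨G₀, fun G hG k q => ?_⟩
  obtain ⟨C₀, h2⟩ := h1 G hG k q
  refine ⟨C₀, fun δ H t ht => ?_⟩
  obtain ⟨h3, h4⟩ := h2 δ H t ht
  refine ⟨h3, fun w => ?_⟩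
  obtain ⟨S, hS1, hS2, h5⟩ := h4 w
  rw [range_central] at hS1
  refine ⟨S, hS1, hS2, fun u hu huS => ?_⟩
  obtain ⟨h6, h7, h8, h9⟩ := h5 u hu huS
  exact ⟨h6, h7, h8, rel_conv h9⟩

end Pool.Agent.Results.MP_290158_ag.HyperellipticGrowingDegrees
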