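import Pool.Agent.R349.MVBall3

/-!
# Degree-bounded period relations in families with symplectic monodromy: exceptional points in small balls

The starting files (`MP_77d3f5_ag`, `SymplecticMonodromy`) cover the exceptional points of height at most `T` of a family
with symplectic monodromy by `T ^ ε` hypersurfaces of the base. Here we look at the smallest scale: in each ball of radius
`T ^ (-η)`, for every `η > 0`, the exceptional points lie on a bounded number of hypersurfaces of bounded degree; for
families with one parameter there is a bounded number of them. The bounds do not depend on `T`, the number field, the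
ball and the constants.

The definitions (`Pool.Agent.Y890.SM`, `Pool.Agent.Y890.MV`, `Pool.Agent.Y124`, `Pool.Agent.Y120`):
* `SympFam X n` : the families; `F.P i x` the matrices of periods, `F.Q i` and `F.J i` the polarizations;
* `F.torsor x` : the pairs `(Y, μ)`, `μ ≠ 0`, with `Y i * Q i(x) * (Y i)ᵀ = μ ^ w i J i` for all `i`;
* `F.Exceptional k K io ξ T` : the points `e` of `K ^ X` of height at most `T` in the compact set `InnerM F.U k` (norm at
  most `k`, distance at least `1 / k` from the complement of `F.U`) such that a relation of degree at most `k` in each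
  entry between the periods, with coefficients `∑ c a * (2 π i) ^ a` respectively `∑ c a * ξ a` (`a < k`), where the `c a`
  are integers of `K` all of whose conjugates are at most `T ^ k`, does not hold on the torsor (respectively at all
  `(Y, 2 π i)` in the torsor);
* `Cov D m S` : `S` is covered by at most `m` hypersurfaces of degree at most `D`;
* `Y890.HE.Conf n`, `Y890.HE.pm n e` : the branch points `e i r`, `r ≤ n i`, with increasing real parts, and the matrices
  of the periods of `x ^ j dx / y` on `y² = ∏ (x - e i r)`.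
-/

set_option autoImplicit false

namespace Pool.Agent.Results.MP_290158_ag.SmallBalls

open Pool.Agent Pool.Agent.Y890.MV Pool.Agent.Y890.SM

/-- (1) Let `F` be a family with symplectic monodromy over an open subset of `ℂ ^ X`. For all `k` and `η > 0` there are
`C` and `T₀` such that for all number fields `K` of degree at most `k`, embedded in `ℂ`, all complex numbers `ξ a`,
`a < k`, all `T ≥ T₀` and all points `t₀` of `ℂ ^ X`: the exceptional points at distance at most `T ^ (-η)` from `t₀` lie
on at most `C` hypersurfaces of degree at most `C`; hence for all finite subsets `B j` of `K` at most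
`C ∑_j ∏_{i ≠ j} |B i|` of them have coordinates in the sets `B j`, and at most `C` if there is one parameter.
(2) The period matrices of all products of hyperelliptic curves `y² = ∏ (x - e i r)`, `r ≤ n i`, `n i` even, are such a
family. -/
theorem result :
    (∀ (X : Type) [Fintype X] [DecidableEq X] [Nonempty X] (ι : Type) [Fintype ι] [DecidableEq ι] (n : ι → ℕ)
      (F : SympFam X n),
      (∀ x ∈ F.U, ((fun i => F.P i x), tpi) ∈ F.torsor x) ∧
      ∀ (k : ℕ) (η : ℝ), 0 < η → ∃ (C : ℕ) (T₀ : ℝ), ∀ (K : Type) [Field K] [NumberField K],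
        Module.finrank ℚ K ≤ k → ∀ (io : K →+* ℂ) (ξ : Fin k → ℂ) (T : ℝ), T₀ ≤ T → ∀ t₀ : X → ℂ,
          Y124.Cov C C {t | ‖t - t₀‖ ≤ T ^ (-η) ∧ ∃ e ∈ F.Exceptional k K io ξ T, t = fun j => io (e j)} ∧
          ∀ (B : X → Finset K) (E : Finset (X → K)), (∀ e ∈ E, (∀ j, e j ∈ B j) ∧
              e ∈ F.Exceptional k K io ξ T ∧ ‖(fun j => io (e j)) - t₀‖ ≤ T ^ (-η)) →
            E.card ≤ C * ∑ j, ∏ i ∈ Finset.univ.erase j, (B i).card) ∧
    ∀ (ι : Type) [Fintype ι] [DecidableEq ι] (n : ι → ℕ), (∀ i, Even (n i)) →
      ∃ F : SympFam (Σ i, Fin (n i + 1)) n, F.U = Y890.HE.Conf n ∧ (∀ i, F.w i = 1) ∧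
        ∀ i e, F.P i e = Y890.HE.pm n e i := by
  refine ⟨fun X _ _ _ ι _ _ n F => ⟨fun _ hx => F.mem hx, fun k η hη => ?_⟩,
    fun _ _ _ n hn => ⟨hyp n hn, rfl, fun _ => rfl, fun _ _ => rfl⟩⟩
  obtain ⟨D, C, T₀, -, H⟩ := R349.MVB.sympB F k η hη
  refine ⟨D + C + C * D, T₀, fun K _ _ hK io ξ T hT t₀ => ?_⟩
  have h1 := H K hK io ξ T hT t₀
  have h2 : Y124.Cov D C {t | ‖t - t₀‖ ≤ T ^ (-η) ∧ ∃ e ∈ F.Exceptional k K io ξ T, t = fun j => io (e j)} := by
    refine h1.mono le_rfl le_rfl ?_
    rintro t ⟨ht, e, he, rfl⟩
    exact ⟨⟨e, he, rfl⟩, ht⟩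
  refine ⟨h2.mono (by omega) (by omega) (Set.Subset.refl _), fun B E hE => ?_⟩
  refine (R349.MVB.cov_prod io B _ h2 E fun e he => ?_).trans (Nat.mul_le_mul_right _ (by omega))
  obtain ⟨h3, h4, h5⟩ := hE e he
  exact ⟨h3, h5, e, h4, rfl⟩

end Pool.Agent.Results.MP_290158_ag.SmallBalls
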