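import Pool.Agent.R349.MVBall4

/-!
# Degree-bounded period relations in families of even-dimensional varieties: exceptional points in small balls

The starting file `MP_1eadae_ag`, `EvenDimensionalFamilies`, covers the exceptional points of height at most `T` of a family
with orthogonal monodromy by `T ^ ε` hypersurfaces of the base. Here we look at the smallest scale: in each ball of radius
`T ^ (-η)`, for every `η > 0`, the exceptional points lie on a bounded number of hypersurfaces of bounded degree. The
bounds do not depend on `T`, the number field, the ball and the constants.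

The definitions (`Pool.Agent.Y985.OR`, `Pool.Agent.Y119.PLM`, `Pool.Agent.Y890.MV`, `Pool.Agent.Y124`,
`Pool.Agent.Y120`):
* `MT n` : tuples of complex matrices `A j` of size `n j`; `pe P A` : the value of `P` at the entries of `A`;
* `refl J v` : the reflection `x ↦ x - 2 (v, x) / (v, v) v` for the form `J`;
* `IsMon U Y g` : some analytic continuation of `Y` on `U` is `Y g` on a nonempty open subset of `U`;
* `BigO J U Y j` : the tuples `(1, .., h, .., 1)` (`h` in position `j`) in the monodromy with reflections `h` have no
  common invariant subspace besides `0` and the whole space, and two of them have a product of infinite order;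
* `DenseS U Y J` : polynomials which vanish on the monodromy vanish on the product of the special orthogonal groups;
* `ExcE J J' U Y K io k ξ T` : the points `s` of `K ^ X` of height at most `T` in the compact set `InnerM U k` (norm at
  most `k`, distance at least `1 / k` from the complement of `U`) such that some polynomial `P` of partial degrees at most
  `k`, with coefficients `∑ a, ξ a * c a` (`a < k`), `c a` integers of `K` with all conjugates at most `T ^ k`, vanishes at
  `Y(s)` but not at all tuples `A` with `(A j)ᵀ * J' j (s) * A j = J j` and `det (A j) = det (Y j (s))`;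
* `Cov D m S` : `S` is covered by at most `m` hypersurfaces of degree at most `D`.
-/

set_option autoImplicit false

namespace Pool.Agent.Results.MP_290158_ag.SmallBallsOrthogonal

open Pool.Agent Pool.Agent.Y119.PLM Pool.Agent.Y985.OR

/-- Let `U` be a connected nonempty open set in `ℂ ^ X` and `Y j`, `j` in a finite set, matrices of analytic functions
on `U` (period matrices) with `(Y j)ᵀ * J' j * Y j = J j`, where the entries of `J' j` are polynomials on the base and
`J j` is constant, symmetric and invertible. Assume that the Zariski closure of the monodromy contains the product of the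
special orthogonal groups of the `J j`, or that the reflections in the monodromy concentrated in the factor `j` act
irreducibly and two of them have a product of infinite order, for every `j`. Then for all `k` and `η > 0` there are `C`
and `T₀` such that for all number fields `K` of degree at most `k`, all embeddings, all complex numbers `ξ a`, `a < k`,
all `T ≥ T₀` and all points `t₀` of `ℂ ^ X`: the exceptional points (`ExcE`) at distance at most `T ^ (-η)` from `t₀` lie
on at most `C` hypersurfaces of degree at most `C`; and for all finite subsets `B j` of `K` at most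
`C ∑_j ∏_{i ≠ j} |B i|` of them have coordinates in the sets `B j` (at most `C` if there is one parameter). -/
theorem result {X κ : Type} [Fintype X] [DecidableEq X] [Nonempty X] [Fintype κ] [DecidableEq κ] (n : κ → ℕ)
    (J : (j : κ) → Matrix (Fin (n j)) (Fin (n j)) ℂ)
    (J' : (j : κ) → Matrix (Fin (n j)) (Fin (n j)) (MvPolynomial X ℂ)) (hJ : ∀ j, (J j).transpose = J j)
    (hdet : ∀ j, (J j).det ≠ 0) (U : Set (X → ℂ)) (hU : IsPreconnected U) (hUo : IsOpen U) (hne : U.Nonempty)
    (Y : (X → ℂ) → MT n) (hY : ∀ j a b, AnalyticOnNhd ℂ (fun x => Y x j a b) U)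
    (hsym : ∀ x ∈ U, ∀ j, (Y x j).transpose * (J' j).map (MvPolynomial.eval x) * Y x j = J j)
    (hmon : DenseS U Y J ∨ ∀ j, BigO J U Y j) (k : ℕ) (η : ℝ) (hη : 0 < η) :
    ∃ (C : ℕ) (T₀ : ℝ), ∀ (K : Type) [Field K] [NumberField K], Module.finrank ℚ K ≤ k →
      ∀ (io : K →+* ℂ) (ξ : Fin k → ℂ) (T : ℝ), T₀ ≤ T → ∀ t₀ : X → ℂ,
        Y124.Cov C C {t | ‖t - t₀‖ ≤ T ^ (-η) ∧ ∃ s ∈ ExcE J J' U Y K io k ξ T, t = fun i => io (s i)} ∧
        ∀ (B : X → Finset K) (E : Finset (X → K)), (∀ s ∈ E, (∀ j, s j ∈ B j) ∧
            s ∈ ExcE J J' U Y K io k ξ T ∧ ‖(fun i => io (s i)) - t₀‖ ≤ T ^ (-η)) →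
          E.card ≤ C * ∑ j, ∏ i ∈ Finset.univ.erase j, (B i).card := by
  have hF : Fam J J' U Y := ⟨hU, hUo, hne, hY, fun j => ⟨Or.inl (hJ j), hdet j⟩, hsym⟩
  have hD : DenseS U Y J := by
    rcases hmon with h | h
    · exact h
    · have h1 : DenseMon U Y J := dense' X κ n J J' U Y hF fun j => Or.inl ⟨hJ j, h j⟩
      exact fun p hp g hg => h1 p hp g fun j => (hg j).1
  obtain ⟨D, C, T₀, -, H⟩ := R349.MVB.orthB hF hD k η hη
  refine ⟨D + C + C * D, T₀, fun K _ _ hK io ξ T hT t₀ => ?_⟩
  have h1 := H K hK io ξ T hT t₀
  have h2 : Y124.Cov D C {t | ‖t - t₀‖ ≤ T ^ (-η) ∧ ∃ s ∈ ExcE J J' U Y K io k ξ T, t = fun i => io (s i)} := by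
    refine h1.mono le_rfl le_rfl ?_
    rintro t ⟨ht, s, hs, rfl⟩
    exact ⟨⟨s, hs, rfl⟩, ht⟩
  refine ⟨h2.mono (by omega) (by omega) (Set.Subset.refl _), fun B E hE => ?_⟩
  refine (R349.MVB.cov_prod io B _ h2 E fun s hs => ?_).trans (Nat.mul_le_mul_right _ (by omega))
  obtain ⟨h3, h4, h5⟩ := hE s hs
  exact ⟨h3, h5, s, h4, rfl⟩

end Pool.Agent.Results.MP_290158_ag.SmallBallsOrthogonal
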